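import Pool.Agent.H94.CB.M11
import Pool.Agent.H94.CB.M156

/-!
# G Shift: translation of the base

Everything is immediate from the definitions.  `ss_shift`: `F ∈ Sec X Λ u ↔ F (· + c) ∈ Sec X Λ (u - c)`, so `f ↦ f (· + c)` maps `SS X Λ u` injectively to `SS X Λ (u - c)`.
`shiftForm`: `α.toFun (z + c) x v w`; `u x - c - z ∈ Λ ↔ u x - (z + c) ∈ Λ`.
`isNC_shift`: the same coordinates.
`image_finite`: let `δ` be the separation; every `b ∈ B` is congruent modulo `Γ` to an element of `B ∩ closedBall 0 R` (`Lat.cocompact` for `Γ`: `‖b - l‖ ≤ R`, and `b - l ∈ B`), and `B ∩ closedBall 0 R` is finite (a separated bounded set: an infinite subset of a compact set has an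
accumulation point, or use total boundedness).
`exists_delta`: `0 ∉ B`: if no point of `B` has norm `< δ₀ / 2` take `δ = δ₀ / 8`; otherwise there is only one such point `b`, `b ≠ 0`, take `δ = min (δ₀ / 8) (‖b‖ / 4)`.
-/

set_option autoImplicit false

open Topology Filter Metric

noncomputable section

namespace Pool.Agent.H17G

attribute [-instance] ProperSMul.toContinuousSMul

open Pool.Agent.H62.EF (MN pr Lat Sec SS)
open Pool.Agent.H62.EL (BadSet Gd)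
open Pool.Agent.H36.BP (EN)

variable {N : ℕ} {X : Set (EN N)} {Λ Γ : AddSubgroup ℂ} {u : EN N → ℂ}

theorem ss_shift (c : ℂ) (h : (SS X Λ (fun x => u x - c)).Finite) : (SS X Λ u).Finite := by
  refine Set.Finite.of_finite_image (f := fun (f : ℂ → MN N) (z : ℂ) => f (z + c)) (h.subset ?_) ?_
  · rintro _ ⟨_, ⟨F, hF, rfl⟩, rfl⟩
    refine ⟨fun z => F (z + c), ⟨?_, fun z => hF.2.1 _, fun z => ?_⟩, rfl⟩
    · exact hF.1.comp (differentiable_id.add_const c)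
    · have h1 := hF.2.2 (z + c)
      have e : u (F (z + c)) - c - z = u (F (z + c)) - (z + c) := by ring
      simpa only [e] using h1
  · intro f _ g _ hfg
    funext z
    have h1 := congrFun hfg (z - c)
    simpa using h1

private theorem shift_finite {B : Set ℂ} {δ : ℝ} (hδ : 0 < δ) (hsep : ∀ b ∈ B, ∀ b' ∈ B, b ≠ b' → δ ≤ ‖b - b'‖) (R : ℝ) :
    (B ∩ closedBall 0 R).Finite := by
  have hK : TotallyBounded (closedBall (0 : ℂ) R) := (isCompact_closedBall 0 R).totallyBounded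
  obtain ⟨t, ht, hcov⟩ := Metric.totallyBounded_iff.1 hK (δ / 2) (by positivity)
  have h1 : ∀ b ∈ B ∩ closedBall 0 R, ∃ y ∈ t, b ∈ ball y (δ / 2) := by
    intro b hb
    obtain ⟨y, hy, hby⟩ := Set.mem_iUnion₂.1 (hcov hb.2)
    exact ⟨y, hy, hby⟩
  choose! g hg using h1
  refine Set.Finite.of_finite_image (f := g) (ht.subset ?_) ?_
  · rintro _ ⟨b, hb, rfl⟩
    exact (hg b hb).1
  · intro b hb b' hb' he
    by_contra hne
    have h2 := hsep b hb.1 b' hb'.1 hne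
    have h3 : dist b (g b) < δ / 2 := (hg b hb).2
    have h4 : dist b' (g b') < δ / 2 := (hg b' hb').2
    rw [← he] at h4
    have h5 : dist b b' ≤ dist b (g b) + dist b' (g b) := dist_triangle_right _ _ _
    rw [dist_eq_norm b b'] at h5
    linarith

theorem image_finite (hΓ : Lat Γ) {B : Set ℂ} (hinv : ∀ b ∈ B, ∀ l ∈ Γ, b + l ∈ B) {δ : ℝ} (hδ : 0 < δ)
    (hsep : ∀ b ∈ B, ∀ b' ∈ B, b ≠ b' → δ ≤ ‖b - b'‖) : ((fun b : ℂ => (b : ℂ ⧸ Γ)) '' B).Finite := by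
  obtain ⟨R, hR, hcc⟩ := hΓ.cocompact
  refine ((shift_finite hδ hsep R).image (fun b : ℂ => (b : ℂ ⧸ Γ))).subset ?_
  rintro _ ⟨b, hb, rfl⟩
  obtain ⟨l, hl, hbl⟩ := hcc b
  refine ⟨b - l, ⟨?_, ?_⟩, ?_⟩
  · have h1 := hinv b hb (-l) (Γ.neg_mem hl)
    rwa [← sub_eq_add_neg] at h1
  · rw [mem_closedBall, dist_zero_right]
    exact hbl
  · change ((b - l : ℂ) : ℂ ⧸ Γ) = (b : ℂ ⧸ Γ)
    rw [QuotientAddGroup.eq]
    have e : -(b - l) + b = l := by ring
    rw [e]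
    exact hl

theorem exists_delta {B : Set ℂ} {δ₀ : ℝ} (hδ₀ : 0 < δ₀) (hinv : ∀ b ∈ B, ∀ l ∈ Λ, b + l ∈ B)
    (hsep : ∀ b ∈ B, ∀ b' ∈ B, b ≠ b' → δ₀ ≤ ‖b - b'‖) (h0 : (0 : ℂ) ∉ B) : ∃ δ : ℝ, BadSet B Λ δ ∧ ∀ b ∈ B, 4 * δ ≤ ‖b‖ := by
  by_cases hc : ∀ b ∈ B, δ₀ / 2 ≤ ‖b‖
  · refine ⟨δ₀ / 8, ⟨by positivity, hinv, fun b hb b' hb' hne => ?_⟩, fun b hb => ?_⟩
    · have := hsep b hb b' hb' hne
      linarith
    · have := hc b hb
      linarith
  · push Not at hc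
    obtain ⟨b₀, hb₀, hlt⟩ := hc
    have hb₀0 : b₀ ≠ 0 := fun h => h0 (h ▸ hb₀)
    have hpos : 0 < ‖b₀‖ := norm_pos_iff.2 hb₀0
    refine ⟨min (δ₀ / 8) (‖b₀‖ / 4), ⟨lt_min (by positivity) (by positivity), hinv, fun b hb b' hb' hne => ?_⟩, fun b hb => ?_⟩
    · have h1 := hsep b hb b' hb' hne
      have h2 := min_le_left (δ₀ / 8) (‖b₀‖ / 4)
      linarith
    · by_cases hbb : b = b₀
      · rw [hbb]
        have h2 := min_le_right (δ₀ / 8) (‖b₀‖ / 4)
        linarith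
      · have h1 := hsep b hb b₀ hb₀ hbb
        have h2 := min_le_left (δ₀ / 8) (‖b₀‖ / 4)
        have h3 := norm_sub_le b b₀
        linarith

end Pool.Agent.H17G
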